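import Pool.Agent.Helper88.AS.Defs
import Pool.Agent.Helper3.AD.L2c

/-!
# ArtinSquares (MP_9fc8a5_nt): the `L²` step

If `θ` is close in the quadratic mean to its averages over the cosets `g M`, and `χ` has average zero over every
coset `g M`, then the average of `θ χ` is small.
-/

set_option autoImplicit false

namespace Pool.Agent.Helper40.AS

open Pool.Agent.Helper13.Ded (av)
open Pool.Agent.Helper90.EE (cav cav_eq_sum)
open Pool.Agent.Helper88.AS (PA)
open Pool.Agent.Helper3.AD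

variable {G : Type*} [Group G] [Finite G]

/-- `PA` is constant on the cosets `g M` -/
theorem PA_mul (M : Subgroup G) (θ : G → ℂ) (g : G) (m : M) : PA M θ (g * m) = PA M θ g := by
  unfold PA
  have h := Pool.Agent.Helper90.EE.cav_comp_equiv (Equiv.mulLeft m) (fun a : M => θ (g * a))
  rw [← h]
  congr 1
  funext a
  simp only [Equiv.coe_mulLeft, Subgroup.coe_mul, mul_assoc]

/-- a function which is constant on the cosets `g M` is orthogonal to `χ` -/
theorem sum_const_mul (M : Subgroup G) (f χ : G → ℂ) (hf : ∀ (g : G) (m : M), f (g * m) = f g)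
    (hχ : ∀ g : G, ∑ᶠ m : M, χ (g * m) = 0) : ∑ᶠ g : G, f g * χ g = 0 := by
  classical
  have := Fintype.ofFinite G
  have := Fintype.ofFinite M
  rw [finsum_eq_sum_of_fintype]
  have h1 : ∀ m : M, ∑ g : G, f g * χ (g * m) = ∑ g : G, f g * χ g := by
    intro m
    rw [← Equiv.sum_comp (Equiv.mulRight (m : G)) (fun g => f g * χ g)]
    refine Finset.sum_congr rfl fun g _ => ?_
    simp only [Equiv.coe_mulRight]
    rw [hf g m]
  have h2 : (Fintype.card M : ℂ) * ∑ g : G, f g * χ g = 0 := by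
    calc (Fintype.card M : ℂ) * ∑ g : G, f g * χ g = ∑ m : M, ∑ g : G, f g * χ (g * m) := by
          rw [Finset.sum_congr rfl fun m _ => h1 m, Finset.sum_const, Finset.card_univ, nsmul_eq_mul]
      _ = ∑ g : G, f g * ∑ m : M, χ (g * m) := by
          rw [Finset.sum_comm]
          exact Finset.sum_congr rfl fun g _ => by rw [Finset.mul_sum]
      _ = 0 := Finset.sum_eq_zero fun g _ => by
          have := hχ g
          rw [finsum_eq_sum_of_fintype] at this
          rw [this, mul_zero]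
  exact (mul_eq_zero.1 h2).resolve_left (by exact_mod_cast Fintype.card_ne_zero)

/-- the `L²` step -/
theorem l2_pair (M : Subgroup G) (θ χ : G → ℂ) (hχ : ∀ g : G, ∑ᶠ m : M, χ (g * m) = 0) {s : ℝ}
    (hs : 0 ≤ s) (h : av (fun g => ‖θ g - PA M θ g‖ ^ 2) ≤ s ^ 2) :
    ‖cav (fun g => θ g * χ g)‖ ≤ s * Real.sqrt (av (fun g => ‖χ g‖ ^ 2)) := by
  classical
  have := Fintype.ofFinite G
  have h1 : cav (fun g => θ g * χ g) = cav (fun g => (θ g - PA M θ g) * χ g) := by
    have h2 := sum_const_mul M (PA M θ) χ (fun g m => PA_mul M θ g m) hχ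
    rw [finsum_eq_sum_of_fintype] at h2
    rw [cav_eq_sum, cav_eq_sum]
    congr 1
    calc ∑ g, θ g * χ g = ∑ g, ((θ g - PA M θ g) * χ g + PA M θ g * χ g) :=
          Finset.sum_congr rfl fun g _ => by ring
      _ = _ := by rw [Finset.sum_add_distrib, h2, add_zero]
  rw [h1]
  have hn : (0 : ℝ) < Fintype.card G := by exact_mod_cast Fintype.card_pos
  have h3 : ‖cav (fun g => (θ g - PA M θ g) * χ g)‖ ≤
      av (fun g => ‖θ g - PA M θ g‖ * ‖χ g‖) := by
    rw [cav_eq_sum, norm_div, Complex.norm_natCast, Pool.Agent.Helper13.Ded.av_eq_sum]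
    refine div_le_div_of_nonneg_right ?_ hn.le
    refine (norm_sum_le _ _).trans (Finset.sum_le_sum fun g _ => ?_)
    rw [norm_mul]
  refine h3.trans ?_
  have h4 : 0 ≤ av (fun g => ‖χ g‖ ^ 2) := by
    rw [Pool.Agent.Helper13.Ded.av_eq_sum]
    exact div_nonneg (Finset.sum_nonneg fun g _ => sq_nonneg _) hn.le
  exact cs_av (fun g => ‖θ g - PA M θ g‖) (fun g => ‖χ g‖) s (Real.sqrt (av (fun g => ‖χ g‖ ^ 2)))
    (Real.sqrt_nonneg _) h hs (by rw [Real.sq_sqrt h4])

/-- the real part, in the form used for quotients of `L`-functions: `a (θ 1 - θ_M 1) + b av (θ χ).re ≥ 0` -/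
theorem l2_nonneg (M : Subgroup G) (θ χ : G → ℂ) (hχ : ∀ g : G, ∑ᶠ m : M, χ (g * m) = 0) {ε a b : ℝ}
    (hε : 0 ≤ ε) (hb : 0 ≤ b) (hm : 0 ≤ (θ 1 - PA M θ 1).re)
    (h : av (fun g => ‖θ g - PA M θ g‖ ^ 2) ≤ ε ^ 2 * ((θ 1 - PA M θ 1).re) ^ 2)
    (hab : ε * b * Real.sqrt (av (fun g => ‖χ g‖ ^ 2)) ≤ a) :
    0 ≤ a * (θ 1 - PA M θ 1).re + b * av (fun g => (θ g * χ g).re) := by
  have h1 := l2_pair M θ χ hχ (s := ε * (θ 1 - PA M θ 1).re) (mul_nonneg hε hm) (by rw [mul_pow]; exact h)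
  have h2 : -‖cav (fun g => θ g * χ g)‖ ≤ av (fun g => (θ g * χ g).re) := by
    rw [← Pool.Agent.Helper90.EE.cav_re]
    exact (abs_le.1 (Complex.abs_re_le_norm _)).1
  have h3 := mul_le_mul_of_nonneg_left h1 hb
  have h4 := mul_le_mul_of_nonneg_left h2 hb
  have h5 := mul_le_mul_of_nonneg_right hab hm
  nlinarith [h3, h4, h5]

/-- a representation without nonzero vectors fixed by `M`: the trace has sum zero over every coset `g M` -/
theorem sum_trace_zero (M : Subgroup G) {V : Type*} [AddCommGroup V] [Module ℂ V] (r : Representation ℂ G V)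
    (hr : ∀ v : V, (∀ m ∈ M, r m v = v) → v = 0) (g : G) :
    ∑ᶠ m : M, LinearMap.trace ℂ V (r (g * m)) = 0 := by
  classical
  have := Fintype.ofFinite M
  have h1 : ∑ m : M, r (m : G) = 0 := by
    ext v
    rw [LinearMap.sum_apply, LinearMap.zero_apply]
    apply hr
    intro k hk
    rw [map_sum]
    rw [← Equiv.sum_comp (Equiv.mulLeft (⟨k, hk⟩ : M)) (fun m : M => r (m : G) v)]
    refine Finset.sum_congr rfl fun m _ => ?_
    rw [Equiv.coe_mulLeft, Subgroup.coe_mul, map_mul, Module.End.mul_apply]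
  rw [finsum_eq_sum_of_fintype, ← map_sum]
  have h2 : ∑ m : M, r (g * m) = r g * ∑ m : M, r (m : G) := by
    rw [Finset.mul_sum]
    exact Finset.sum_congr rfl fun m _ => by rw [map_mul]
  rw [h2, h1, mul_zero, map_zero]

end Pool.Agent.Helper40.AS
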